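import Pool.Agent.TH133.TT.Defs

/-!
# Generalities on t-structures
-/

open CategoryTheory Limits MonoidalCategory Triangulated Pretriangulated

universe v₁ v₂ u₁ u₂

namespace Pool.Agent.TH133.TT

set_option linter.style.haveILetI false

section tri

variable {T : Type u₁} [Category.{v₁} T] [Preadditive T] [HasZeroObject T] [HasShift T ℤ]
  [∀ n : ℤ, (shiftFunctor T n).Additive] [Pretriangulated T] {X Y Z A : T} {f : X ⟶ Y}
  {g : Y ⟶ Z} {w : Z ⟶ X⟦(1 : ℤ)⟧}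

lemma yo2 (hT : Triangle.mk f g w ∈ distTriang T) (a : Y ⟶ A) (h : f ≫ a = 0) :
    ∃ b : Z ⟶ A, a = g ≫ b := Triangle.yoneda_exact₂ _ hT a h

lemma yo3 (hT : Triangle.mk f g w ∈ distTriang T) (a : Z ⟶ A) (h : g ≫ a = 0) :
    ∃ b : X⟦(1 : ℤ)⟧ ⟶ A, a = w ≫ b := Triangle.yoneda_exact₃ _ hT a h

lemma co1 (hT : Triangle.mk f g w ∈ distTriang T) (a : A ⟶ X⟦(1 : ℤ)⟧) (h : a ≫ f⟦1⟧' = 0) :
    ∃ b : A ⟶ Z, a = b ≫ w := Triangle.coyoneda_exact₁ _ hT a h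

lemma co2 (hT : Triangle.mk f g w ∈ distTriang T) (a : A ⟶ Y) (h : a ≫ g = 0) :
    ∃ b : A ⟶ X, a = b ≫ f := Triangle.coyoneda_exact₂ _ hT a h

lemma co3 (hT : Triangle.mk f g w ∈ distTriang T) (a : A ⟶ Z) (h : a ≫ w = 0) :
    ∃ b : A ⟶ Y, a = b ≫ g := Triangle.coyoneda_exact₃ _ hT a h

lemma fg (hT : Triangle.mk f g w ∈ distTriang T) : f ≫ g = 0 :=
  comp_distTriang_mor_zero₁₂ _ hT

lemma gw (hT : Triangle.mk f g w ∈ distTriang T) : g ≫ w = 0 :=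
  comp_distTriang_mor_zero₂₃ _ hT

lemma wf (hT : Triangle.mk f g w ∈ distTriang T) : w ≫ f⟦1⟧' = 0 :=
  comp_distTriang_mor_zero₃₁ _ hT

lemma iso1 (hT : Triangle.mk f g w ∈ distTriang T) (h : IsZero Z) : IsIso f :=
  (Triangle.isZero₃_iff_isIso₁ _ hT).1 h

lemma iso2 (hT : Triangle.mk f g w ∈ distTriang T) (h : IsZero X) : IsIso g :=
  (Triangle.isZero₁_iff_isIso₂ _ hT).1 h

lemma isZero_of_shift (n : ℤ) (h : IsZero (X⟦n⟧)) : IsZero X := by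
  rw [IsZero.iff_id_eq_zero]
  apply (shiftFunctor T n).map_injective
  rw [Functor.map_zero]
  exact h.eq_of_src _ _

lemma isZero_shift (n : ℤ) (h : IsZero X) : IsZero (X⟦n⟧) :=
  (shiftFunctor T n).map_isZero h

end tri

variable {T : Type u₁} [Category.{v₁} T] [Preadditive T] [HasZeroObject T] [HasShift T ℤ]
  [∀ n : ℤ, (shiftFunctor T n).Additive] [Pretriangulated T] (t : TStructure T)

lemma hom_zero {X Y : T} (f : X ⟶ Y) {m n : ℤ} (h : m < n) (hX : t.le m X) (hY : t.ge n Y) :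
    f = 0 := by
  haveI : t.IsLE X m := ⟨hX⟩
  haveI : t.IsGE Y n := ⟨hY⟩
  exact t.zero f m n h

lemma isZero_of {X : T} {m n : ℤ} (h : m < n) (hX : t.le m X) (hY : t.ge n X) : IsZero X := by
  rw [IsZero.iff_id_eq_zero]
  exact hom_zero t _ h hX hY

lemma le_of_iso {X Y : T} (e : X ≅ Y) {n : ℤ} (h : t.le n X) : t.le n Y :=
  (t.le n).prop_of_iso e h

lemma ge_of_iso {X Y : T} (e : X ≅ Y) {n : ℤ} (h : t.ge n X) : t.ge n Y :=
  (t.ge n).prop_of_iso e h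

lemma le_mono {X : T} {m n : ℤ} (h : m ≤ n) (hX : t.le m X) : t.le n X := t.le_monotone h _ hX

lemma ge_anti {X : T} {m n : ℤ} (h : m ≤ n) (hX : t.ge n X) : t.ge m X := t.ge_antitone h _ hX

/-- An object without non-zero maps to `T^{≥n+1}` lies in `T^{≤n}`. -/
lemma le_of_hom {X : T} {n : ℤ} (h : ∀ Y : T, t.ge (n + 1) Y → ∀ f : X ⟶ Y, f = 0) :
    t.le n X := by
  obtain ⟨A, B, hA, hB, f, g, w, hT⟩ := t.exists_triangle X n (n + 1) rfl
  have hg : g = 0 := h B hB g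
  obtain ⟨k, hk⟩ := yo3 hT (𝟙 B) (by rw [hg, zero_comp])
  have hk0 : k = 0 := hom_zero t k (m := n - 1) (n := n + 1) (by omega)
    (t.le_shift n 1 (n - 1) (by omega) A hA) hB
  have hB0 : IsZero B := by
    rw [IsZero.iff_id_eq_zero, hk, hk0, comp_zero]
  haveI : IsIso f := iso1 hT hB0
  exact le_of_iso t (asIso f) hA

/-- An object without non-zero maps from `T^{≤n-1}` lies in `T^{≥n}`. -/
lemma ge_of_hom {X : T} {n : ℤ} (h : ∀ Y : T, t.le (n - 1) Y → ∀ f : Y ⟶ X, f = 0) :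
    t.ge n X := by
  obtain ⟨A, B, hA, hB, f, g, w, hT⟩ := t.exists_triangle X (n - 1) n (by omega)
  have hf : f = 0 := h A hA f
  obtain ⟨k, hk⟩ := co1 hT (𝟙 _) (by rw [hf, Functor.map_zero, comp_zero])
  have hA1 : t.le (n - 2) (A⟦(1 : ℤ)⟧) := t.le_shift (n - 1) 1 (n - 2) (by omega) A hA
  have hk0 : k = 0 := hom_zero t k (m := n - 2) (n := n) (by omega) hA1 hB
  have hA0 : IsZero (A⟦(1 : ℤ)⟧) := by
    rw [IsZero.iff_id_eq_zero, hk, hk0, zero_comp]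
  haveI : IsIso g := iso2 hT (isZero_of_shift 1 hA0)
  exact ge_of_iso t (asIso g).symm hB

/-- `T^{≤n}` is stable under extensions. -/
lemma le_of_ext {X Y Z : T} {f : X ⟶ Y} {g : Y ⟶ Z} {w : Z ⟶ X⟦(1 : ℤ)⟧}
    (hT : Triangle.mk f g w ∈ distTriang T) {n : ℤ} (hX : t.le n X) (hZ : t.le n Z) :
    t.le n Y := by
  apply le_of_hom
  intro A hA a
  obtain ⟨b, hb⟩ := yo2 hT a (hom_zero t _ (by omega) hX hA)
  rw [hb, hom_zero t b (by omega) hZ hA, comp_zero]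

/-- `T^{≥n}` is stable under extensions. -/
lemma ge_of_ext {X Y Z : T} {f : X ⟶ Y} {g : Y ⟶ Z} {w : Z ⟶ X⟦(1 : ℤ)⟧}
    (hT : Triangle.mk f g w ∈ distTriang T) {n : ℤ} (hX : t.ge n X) (hZ : t.ge n Z) :
    t.ge n Y := by
  apply ge_of_hom
  intro A hA a
  obtain ⟨b, hb⟩ := co2 hT a (hom_zero t _ (by omega) hA hZ)
  rw [hb, hom_zero t b (by omega) hA hX, zero_comp]

/-- The third object of a triangle. -/
lemma le_third {X Y Z : T} {f : X ⟶ Y} {g : Y ⟶ Z} {w : Z ⟶ X⟦(1 : ℤ)⟧}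
    (hT : Triangle.mk f g w ∈ distTriang T) {n : ℤ} (hY : t.le n Y) (hX : t.le (n + 1) X) :
    t.le n Z :=
  le_of_ext t (rot_of_distTriang _ hT) hY (t.le_shift (n + 1) 1 n (by omega) X hX)

/-- The first object of a triangle. -/
lemma ge_first {X Y Z : T} {f : X ⟶ Y} {g : Y ⟶ Z} {w : Z ⟶ X⟦(1 : ℤ)⟧}
    (hT : Triangle.mk f g w ∈ distTriang T) {n : ℤ} (hY : t.ge n Y) (hZ : t.ge (n - 1) Z) :
    t.ge n X :=
  ge_of_ext t (inv_rot_of_distTriang _ hT)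
    (t.ge_shift (n - 1) (-1) n (by omega) Z hZ) hY

/-- The third object of a triangle. -/
lemma ge_third {X Y Z : T} {f : X ⟶ Y} {g : Y ⟶ Z} {w : Z ⟶ X⟦(1 : ℤ)⟧}
    (hT : Triangle.mk f g w ∈ distTriang T) {n : ℤ} (hY : t.ge n Y) (hX : t.ge (n + 1) X) :
    t.ge n Z :=
  ge_of_ext t (rot_of_distTriang _ hT) hY (t.ge_shift (n + 1) 1 n (by omega) X hX)

/-- The first object of a triangle. -/
lemma le_first {X Y Z : T} {f : X ⟶ Y} {g : Y ⟶ Z} {w : Z ⟶ X⟦(1 : ℤ)⟧}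
    (hT : Triangle.mk f g w ∈ distTriang T) {n : ℤ} (hY : t.le n Y) (hZ : t.le (n - 1) Z) :
    t.le n X :=
  le_of_ext t (inv_rot_of_distTriang _ hT)
    (t.le_shift (n - 1) (-1) n (by omega) Z hZ) hY

end Pool.Agent.TH133.TT
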