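import Pool.Agent.TH133.TT.Tensor

/-!
# Conservativity of t-exact tensor functors
-/

open CategoryTheory Limits MonoidalCategory Triangulated Pretriangulated

universe v₁ v₂ u₁ u₂

namespace Pool.Agent.TH133.TT

set_option linter.style.haveILetI false
set_option linter.unusedSectionVars false

variable {T : Type u₁} [Category.{v₁} T] [Preadditive T] [HasZeroObject T] [HasShift T ℤ]
  [∀ n : ℤ, (shiftFunctor T n).Additive] [Pretriangulated T] [MonoidalCategory T]
  [BraidedCategory T] [∀ X : T, (tensorLeft X).CommShift ℤ]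
  [∀ X : T, (tensorLeft X).IsTriangulated] [∀ X : T, HasRightDual X]
  {D : Type u₂} [Category.{v₂} D] [Preadditive D] [HasZeroObject D] [HasShift D ℤ]
  [∀ n : ℤ, (shiftFunctor D n).Additive] [Pretriangulated D]
  {R : T ⥤ D} [R.CommShift ℤ] [R.IsTriangulated] {t : TStructure T} {s : TStructure D}

/-- The image of a distinguished triangle. -/
lemma map_dist (R : T ⥤ D) [R.CommShift ℤ] [R.IsTriangulated] {X Y Z : T} {f : X ⟶ Y}
    {g : Y ⟶ Z} {w : Z ⟶ X⟦(1 : ℤ)⟧} (hT : Triangle.mk f g w ∈ distTriang T) :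
    ∃ w' : R.obj Z ⟶ (R.obj X)⟦(1 : ℤ)⟧, Triangle.mk (R.map f) (R.map g) w' ∈ distTriang D :=
  ⟨_, R.map_distinguished _ hT⟩

/-- A t-exact functor whose kernel is a tensor ideal kills no non-zero object of the heart. -/
lemma isZero_of_heart (hn : IsNondegenerate t) (ht : IsTensorCompatible t)
    (hR : IsTExact R t s) (hconn : ∀ e : 𝟙_ T ⟶ 𝟙_ T, e ≫ e = e → e = 0 ∨ e = 𝟙 _)
    (hR1 : ¬ IsZero (R.obj (𝟙_ T)))
    (hRt : ∀ X Y : T, IsZero (R.obj Y) → IsZero (R.obj (X ⊗ Y))) {M : T} (hM : t.le 0 M)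
    (hM' : t.ge 0 M) (hM0 : IsZero (R.obj M)) : IsZero M := by
  have h1 := unit_le ht hn
  have h2 := unit_ge ht hn
  have hd : t.le 0 (Mᘁ) := dual_le ht h1 hM'
  have hN : t.le 0 (Mᘁ ⊗ M) := by simpa using ht.le (Mᘁ) M 0 0 hd hM
  have hN0 : IsZero (R.obj (Mᘁ ⊗ M)) := hRt _ _ hM0
  obtain ⟨C, c, w₁, hT₁⟩ := distinguished_cocone_triangle (ε_ M (Mᘁ))
  have hC : t.le 0 C := le_third t hT₁ h1 (le_mono t (by omega) hN)
  obtain ⟨A, V, hA, hV', a, p, w₂, hT₂⟩ := t.exists_triangle C (-1) 0 (by omega)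
  have hV : t.le 0 V := le_third t hT₂ hC (le_mono t (by omega) hA)
  obtain ⟨U, u, w, hT⟩ := distinguished_cocone_triangle₁ (c ≫ p)
  have hinj : ∀ (Y : T) (h : V ⟶ Y), t.ge 0 Y → (c ≫ p) ≫ h = 0 → h = 0 := by
    intro Y h hY h0
    obtain ⟨b, hb⟩ := yo3 hT₁ (p ≫ h) (by rw [← Category.assoc, h0])
    have hb0 : b = 0 := hom_zero t b (m := -1) (n := 0) (by omega)
      (t.le_shift 0 1 (-1) (by omega) _ hN) hY
    obtain ⟨b', hb'⟩ := yo3 hT₂ h (by rw [hb, hb0, comp_zero])
    have hb0' : b' = 0 := hom_zero t b' (m := -2) (n := 0) (by omega)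
      (t.le_shift (-1) 1 (-2) (by omega) _ hA) hY
    rw [hb', hb0', comp_zero]
  have hU : t.le 0 U := by
    apply le_of_hom
    intro Y hY f
    have h3 : w ≫ f⟦(1 : ℤ)⟧' = 0 := by
      apply hinj
      · exact t.ge_shift 1 1 0 (by omega) _ (by simpa using hY)
      · rw [← Category.assoc, gw hT, zero_comp]
    have hT' : Triangle.mk (c ≫ p) w (-u⟦(1 : ℤ)⟧') ∈ distTriang T := rot_of_distTriang _ hT
    obtain ⟨b, hb⟩ := yo3 hT' (f⟦(1 : ℤ)⟧') h3
    have hb0 : b = 0 := hom_zero t b (m := -1) (n := 0) (by omega)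
      (t.le_shift 0 1 (-1) (by omega) _ h1)
      (t.ge_shift 1 1 0 (by omega) _ (by simpa using hY))
    apply (shiftFunctor T (1 : ℤ)).map_injective
    rw [Functor.map_zero, hb, hb0, comp_zero]
  have hUV := isZero_tensor_of_heart ht hT hU hV hV'
  obtain ⟨σ, hσ⟩ := exists_section (V' := Vᘁ) hT hUV
  rcases hconn ((c ≫ p) ≫ σ) (by
    rw [Category.assoc, ← Category.assoc σ, hσ, Category.id_comp]) with h0 | h0
  · exfalso
    have hV0 : IsZero V := by
      rw [IsZero.iff_id_eq_zero, ← hσ]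
      have h5 : c ≫ p = 0 := by
        have : (c ≫ p) ≫ (σ ≫ (c ≫ p)) = 0 := by
          rw [← Category.assoc, h0, zero_comp]
        rwa [hσ, Category.comp_id] at this
      rw [h5, comp_zero]
    obtain ⟨w₁', hT₁'⟩ := map_dist R hT₁
    obtain ⟨w₂', hT₂'⟩ := map_dist R hT₂
    haveI : IsIso (R.map c) := iso2 hT₁' hN0
    haveI : IsIso (R.map a) := iso1 hT₂' (R.map_isZero hV0)
    have h6 : s.le (-1) (R.obj C) := le_of_iso s (asIso (R.map a)) (hR.le _ _ hA)
    have h7 : s.ge 0 (R.obj C) := ge_of_iso s (asIso (R.map c)) (hR.ge _ _ h2)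
    have h8 : IsZero (R.obj C) := isZero_of s (by omega) h6 h7
    exact hR1 (h8.of_iso (asIso (R.map c)))
  · have h5 : ε_ M (Mᘁ) = 0 := by
      have h6 : ε_ M (Mᘁ) ≫ ((c ≫ p) ≫ σ) = 0 := by
        rw [← Category.assoc, ← Category.assoc, fg hT₁, zero_comp, zero_comp]
      rwa [h0, Category.comp_id] at h6
    have h6 := ExactPairing.evaluation_coevaluation M (Mᘁ)
    rw [h5] at h6
    have h7 : M ◁ (0 : Mᘁ ⊗ M ⟶ 𝟙_ T) = 0 := (tensorLeft M).map_zero _ _
    rw [h7, comp_zero, comp_zero] at h6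
    rw [IsZero.iff_id_eq_zero]
    have h8 : 𝟙 M = (λ_ M).inv ≫ ((λ_ M).hom ≫ (ρ_ M).inv) ≫ (ρ_ M).hom := by simp
    rw [h8, ← h6, zero_comp, comp_zero]

/-- **Conservativity.** -/
theorem isZero_of_map (hn : IsNondegenerate t) (ht : IsTensorCompatible t)
    (hR : IsTExact R t s) (hconn : ∀ e : 𝟙_ T ⟶ 𝟙_ T, e ≫ e = e → e = 0 ∨ e = 𝟙 _)
    (hR1 : ¬ IsZero (R.obj (𝟙_ T)))
    (hRt : ∀ X Y : T, IsZero (R.obj Y) → IsZero (R.obj (X ⊗ Y))) {M : T}
    (hM0 : IsZero (R.obj M)) : IsZero M := by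
  have heart : ∀ (X : T) (n : ℤ), t.le n X → t.ge n X → IsZero (R.obj X) → IsZero X := by
    intro X n hX hX' hX0
    apply isZero_of_shift n
    refine isZero_of_heart hn ht hR hconn hR1 hRt (t.le_shift n n 0 (by omega) X hX)
      (t.ge_shift n n 0 (by omega) X hX') ?_
    exact (isZero_shift n hX0).of_iso ((R.commShiftIso n).app X)
  have split : ∀ (A X B : T) (f : A ⟶ X) (g : X ⟶ B) (w : B ⟶ A⟦(1 : ℤ)⟧) (n : ℤ),
      Triangle.mk f g w ∈ distTriang T → t.le n A → t.ge (n + 1) B → IsZero (R.obj X) →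
        IsZero (R.obj A) ∧ IsZero (R.obj B) := by
    intro A X B f g w n hT hA hB hX
    obtain ⟨w', hT'⟩ := map_dist R hT
    have hRA : IsZero (R.obj B) := by
      have h1 : s.le (n - 1) (R.obj B) := by
        haveI : IsIso w' := (Triangle.isZero₂_iff_isIso₃ _ hT').1 hX
        exact le_of_iso s (asIso w').symm (s.le_shift n 1 (n - 1) (by omega) _ (hR.le _ _ hA))
      exact isZero_of s (by omega) h1 (hR.ge _ _ hB)
    exact ⟨Triangle.isZero₁_of_isZero₂₃ _ hT' hX hRA, hRA⟩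
  have low : ∀ (X : T) (m : ℤ), t.le m X → IsZero (R.obj X) → t.le (m - 1) X := by
    intro X m hX hX0
    obtain ⟨A, B, hA, hB, f, g, w, hT⟩ := t.exists_triangle X (m - 1) m (by omega)
    obtain ⟨-, hB0⟩ := split A X B f g w (m - 1) hT hA (by simpa using hB) hX0
    have hB' : t.le m B := le_third t hT hX (le_mono t (by omega) hA)
    haveI : IsIso f := iso1 hT (heart B m hB' hB hB0)
    exact le_of_iso t (asIso f) hA
  have high : ∀ (X : T) (m : ℤ), t.ge m X → IsZero (R.obj X) → t.ge (m + 1) X := by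
    intro X m hX hX0
    obtain ⟨A, B, hA, hB, f, g, w, hT⟩ := t.exists_triangle X m (m + 1) rfl
    obtain ⟨hA0, -⟩ := split A X B f g w m hT hA hB hX0
    have hA' : t.ge m A := ge_first t hT hX (ge_anti t (by omega) hB)
    haveI : IsIso g := iso2 hT (heart A m hA hA' hA0)
    exact ge_of_iso t (asIso g).symm hB
  obtain ⟨A, B, hA, hB, f, g, w, hT⟩ := t.exists_triangle M 0 1 (by omega)
  obtain ⟨hA0, hB0⟩ := split A M B f g w 0 hT hA (by simpa using hB) hM0
  have hAz : IsZero A := by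
    apply hn.le
    have h1 : ∀ k : ℕ, t.le (0 - k) A := by
      intro k
      induction k with
      | zero => simpa using hA
      | succ k ih =>
        have := low A _ ih hA0
        exact le_mono t (by push_cast; omega) this
    intro n
    exact le_mono t (by omega) (h1 (-n).toNat)
  have hBz : IsZero B := by
    apply hn.ge
    have h1 : ∀ k : ℕ, t.ge (1 + k) B := by
      intro k
      induction k with
      | zero => simpa using hB
      | succ k ih =>
        have := high B _ ih hB0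
        exact ge_anti t (by push_cast; omega) this
    intro n
    exact ge_anti t (by omega) (h1 n.toNat)
  exact Triangle.isZero₂_of_isZero₁₃ _ hT hAz hBz

/-- A conservative t-exact functor detects the t-structure. -/
theorem le_iff_of_conservative (hR : IsTExact R t s)
    (hc : ∀ M : T, IsZero (R.obj M) → IsZero M) (M : T) (n : ℤ) :
    t.le n M ↔ s.le n (R.obj M) := by
  refine ⟨hR.le M n, fun h => ?_⟩
  obtain ⟨A, B, hA, hB, f, g, w, hT⟩ := t.exists_triangle M n (n + 1) rfl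
  obtain ⟨w', hT'⟩ := map_dist R hT
  have h1 : s.le n (R.obj B) := le_third s hT' h (le_mono s (by omega) (hR.le _ _ hA))
  have h2 : IsZero B := hc B (isZero_of s (by omega) h1 (hR.ge _ _ hB))
  haveI : IsIso f := iso1 hT h2
  exact le_of_iso t (asIso f) hA

theorem ge_iff_of_conservative (hR : IsTExact R t s)
    (hc : ∀ M : T, IsZero (R.obj M) → IsZero M) (M : T) (n : ℤ) :
    t.ge n M ↔ s.ge n (R.obj M) := by
  refine ⟨hR.ge M n, fun h => ?_⟩
  obtain ⟨A, B, hA, hB, f, g, w, hT⟩ := t.exists_triangle M (n - 1) n (by omega)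
  obtain ⟨w', hT'⟩ := map_dist R hT
  have h1 : s.ge n (R.obj A) := ge_first s hT' h (ge_anti s (by omega) (hR.ge _ _ hB))
  have h2 : IsZero A := hc A (isZero_of s (by omega) (hR.le _ _ hA) h1)
  haveI : IsIso g := iso2 hT h2
  exact ge_of_iso t (asIso g).symm hB

end Pool.Agent.TH133.TT
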