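import Mathlib.CategoryTheory.Triangulated.TStructure.Basic
import Mathlib.CategoryTheory.Triangulated.Functor
import Mathlib.CategoryTheory.Monoidal.Rigid.Braided
import Mathlib.CategoryTheory.Monoidal.Preadditive

/-!
# Motivic t-structures: definitions
-/

open CategoryTheory Limits MonoidalCategory Triangulated Pretriangulated

universe v₁ v₂ u₁ u₂

namespace Pool.Agent.TH133.TT

variable {T : Type u₁} [Category.{v₁} T] [Preadditive T] [HasZeroObject T] [HasShift T ℤ]
  [∀ n : ℤ, (shiftFunctor T n).Additive] [Pretriangulated T]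

/-- The t-structure `t` is non-degenerate. -/
structure IsNondegenerate (t : TStructure T) : Prop where
  le : ∀ X : T, (∀ n : ℤ, t.le n X) → IsZero X
  ge : ∀ X : T, (∀ n : ℤ, t.ge n X) → IsZero X

/-- The t-structure `t` is compatible with the tensor product: `T^{≤m} ⊗ T^{≤n} ⊆ T^{≤m+n}` and
`T^{≥m} ⊗ T^{≥n} ⊆ T^{≥m+n}`. -/
structure IsTensorCompatible [MonoidalCategory T] (t : TStructure T) : Prop where
  le : ∀ (X Y : T) (m n : ℤ), t.le m X → t.le n Y → t.le (m + n) (X ⊗ Y)
  ge : ∀ (X Y : T) (m n : ℤ), t.ge m X → t.ge n Y → t.ge (m + n) (X ⊗ Y)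

/-- The functor `R` is t-exact with respect to the t-structures `t` and `s`. -/
structure IsTExact {D : Type u₂} [Category.{v₂} D] [Preadditive D] [HasZeroObject D] [HasShift D ℤ]
    [∀ n : ℤ, (shiftFunctor D n).Additive] [Pretriangulated D] (R : T ⥤ D) (t : TStructure T)
    (s : TStructure D) : Prop where
  le : ∀ (X : T) (n : ℤ), t.le n X → s.le n (R.obj X)
  ge : ∀ (X : T) (n : ℤ), t.ge n X → s.ge n (R.obj X)

end Pool.Agent.TH133.TT
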