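import Pool.Agent.TH133.TT.DefsReal
import Mathlib.Algebra.CharP.Algebra
import Mathlib.Algebra.Field.Subfield.Basic
import Mathlib.RingTheory.Algebraic.Defs

/-!
# Motives with realisations over all fields of a given characteristic
-/

open CategoryTheory

universe u v₁ v₂ u₁ u₂ w

namespace Pool.Agent.TH133.TT

/-- Categories of motives with realisations over all fields of characteristic `p`, and base
change functors along field embeddings, which are faithful and for which triangles specialise;
base change to an algebraic extension descends, and motives over `K` descend to finitely
generated subfields of `K`. -/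
structure FieldMotives (p : ℕ) (Λ : Type w) where
  /-- motives over `k` -/
  obj : ∀ (k : Type u) [Field k] [CharP k p], Realised.{v₁, v₂, u₁, u₂} Λ
  /-- base change along `φ` -/
  map : ∀ {k K : Type u} [Field k] [CharP k p] [Field K] [CharP K p] (_ : k →+* K),
    BaseChange (obj k) (obj K)
  faithful : ∀ {k K : Type u} [Field k] [CharP k p] [Field K] [CharP K p] (φ : k →+* K),
    (map φ).P.Faithful
  specialises : ∀ {k K : Type u} [Field k] [CharP k p] [Field K] [CharP K p] (φ : k →+* K),
    (map φ).Specialises
  algebraic : ∀ {k K : Type u} [Field k] [CharP k p] [Field K] [CharP K p] [Algebra k K]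
    [Algebra.IsAlgebraic k K], Descends fun _ : Unit => map (algebraMap k K)
  finitelyGenerated : ∀ (K : Type u) [Field K] [CharP K p],
    Descends fun k : {k : Subfield K // ∃ s : Set K, s.Finite ∧ k = Subfield.closure s} =>
      map k.1.subtype

end Pool.Agent.TH133.TT
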