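import Pool.Agent.TH133.TT.Defs
import Mathlib.CategoryTheory.Monoidal.Functor
import Mathlib.CategoryTheory.Idempotents.Basic
import Mathlib.CategoryTheory.Retract

/-!
# Tensor triangulated categories with realisations, and base change
-/

open CategoryTheory Limits MonoidalCategory Triangulated Pretriangulated

universe v₁ v₂ u₁ u₂ w w'

namespace Pool.Agent.TH133.TT

/-- A tensor triangulated category `T` in which every object has a dual, idempotents split and the
unit object has no idempotent endomorphisms besides `0` and `1`, together with, for every `ℓ` in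
`Λ`, a tensor triangulated category `D ℓ` with a non-degenerate t-structure `s ℓ` compatible with
the tensor product, and a tensor triangulated functor `R ℓ : T ⥤ D ℓ` (the `ℓ`-adic
realisation). -/
structure Realised (Λ : Type w) where
  /-- the category of motives -/
  T : Type u₁
  [catT : Category.{v₁} T]
  [preT : Preadditive T]
  [zeroT : HasZeroObject T]
  [shiftT : HasShift T ℤ]
  [addT : ∀ n : ℤ, (shiftFunctor T n).Additive]
  [triT : Pretriangulated T]
  [monT : MonoidalCategory T]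
  [brT : BraidedCategory T]
  [tensorShift : ∀ X : T, (tensorLeft X).CommShift ℤ]
  [tensorTri : ∀ X : T, (tensorLeft X).IsTriangulated]
  [dualT : ∀ X : T, HasRightDual X]
  [idemT : IsIdempotentComplete T]
  connected : ∀ e : 𝟙_ T ⟶ 𝟙_ T, e ≫ e = e → e = 0 ∨ e = 𝟙 (𝟙_ T)
  /-- the target of the `ℓ`-adic realisation -/
  D : Λ → Type u₂
  [catD : ∀ ℓ, Category.{v₂} (D ℓ)]
  [preD : ∀ ℓ, Preadditive (D ℓ)]
  [zeroD : ∀ ℓ, HasZeroObject (D ℓ)]
  [shiftD : ∀ ℓ, HasShift (D ℓ) ℤ]
  [addD : ∀ ℓ, ∀ n : ℤ, (shiftFunctor (D ℓ) n).Additive]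
  [triD : ∀ ℓ, Pretriangulated (D ℓ)]
  [monD : ∀ ℓ, MonoidalCategory (D ℓ)]
  [monPreD : ∀ ℓ, MonoidalPreadditive (D ℓ)]
  unit_ne : ∀ ℓ, ¬ IsZero (𝟙_ (D ℓ))
  /-- the standard t-structures -/
  s : ∀ ℓ, TStructure (D ℓ)
  nondegenerate : ∀ ℓ, IsNondegenerate (s ℓ)
  tensorCompatible : ∀ ℓ, IsTensorCompatible (s ℓ)
  /-- the realisations -/
  R : ∀ ℓ, T ⥤ D ℓ
  [shiftR : ∀ ℓ, (R ℓ).CommShift ℤ]
  [triR : ∀ ℓ, (R ℓ).IsTriangulated]
  [monR : ∀ ℓ, (R ℓ).Monoidal]

attribute [instance] Realised.catT Realised.preT Realised.zeroT Realised.shiftT Realised.addT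
  Realised.triT Realised.monT Realised.brT Realised.tensorShift Realised.tensorTri
  Realised.dualT Realised.idemT Realised.catD Realised.preD Realised.zeroD Realised.shiftD
  Realised.addD Realised.triD Realised.monD Realised.monPreD Realised.shiftR Realised.triR
  Realised.monR

variable {Λ : Type w}

/-- There is a single t-structure which is non-degenerate and compatible with the tensor product
and for which all realisations are t-exact. -/
def Realised.HasMotivicTStructure (M : Realised.{v₁, v₂, u₁, u₂} Λ) : Prop :=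
  ∃ t : TStructure M.T, IsNondegenerate t ∧ IsTensorCompatible t ∧
    ∀ ℓ : Λ, IsTExact (M.R ℓ) t (M.s ℓ)

/-- A base change functor: a triangulated functor that does not change the cohomological degrees
in which the realisations of an object live. -/
structure BaseChange (M M' : Realised.{v₁, v₂, u₁, u₂} Λ) where
  /-- the functor -/
  P : M.T ⥤ M'.T
  [commShift : P.CommShift ℤ]
  [isTriangulated : P.IsTriangulated]
  le_iff : ∀ (ℓ : Λ) (n : ℤ) (A : M.T),
    (M'.s ℓ).le n ((M'.R ℓ).obj (P.obj A)) ↔ (M.s ℓ).le n ((M.R ℓ).obj A)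
  ge_iff : ∀ (ℓ : Λ) (n : ℤ) (A : M.T),
    (M'.s ℓ).ge n ((M'.R ℓ).obj (P.obj A)) ↔ (M.s ℓ).ge n ((M.R ℓ).obj A)

attribute [instance] BaseChange.commShift BaseChange.isTriangulated

/-- The realisations of `A` are concentrated in every range of degrees in which those of `A'`
are. -/
def Bounded {M M' : Realised.{v₁, v₂, u₁, u₂} Λ} (A : M.T) (A' : M'.T) : Prop :=
  ∀ (ℓ : Λ) (n : ℤ),
    ((M'.s ℓ).le n ((M'.R ℓ).obj A') → (M.s ℓ).le n ((M.R ℓ).obj A)) ∧
    ((M'.s ℓ).ge n ((M'.R ℓ).obj A') → (M.s ℓ).ge n ((M.R ℓ).obj A))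

/-- Triangles specialise: for a distinguished triangle `U → P A → V` there is a distinguished
triangle `U₀ → X → V₀` with `A` a retract of `X` and `U₀`, `V₀` bounded by `U`, `V`. -/
def BaseChange.Specialises {M M' : Realised.{v₁, v₂, u₁, u₂} Λ} (F : BaseChange M M') : Prop :=
  ∀ (A : M.T) (U V : M'.T) (f : U ⟶ F.P.obj A) (g : F.P.obj A ⟶ V) (w : V ⟶ U⟦(1 : ℤ)⟧),
    Triangle.mk f g w ∈ distTriang M'.T →
    ∃ (U₀ X V₀ : M.T) (f₀ : U₀ ⟶ X) (g₀ : X ⟶ V₀) (w₀ : V₀ ⟶ U₀⟦(1 : ℤ)⟧),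
      Triangle.mk f₀ g₀ w₀ ∈ distTriang M.T ∧ Nonempty (Retract A X) ∧
      Bounded U₀ U ∧ Bounded V₀ V

/-- Morphisms descend: every morphism `f : U ⟶ V` is a retract of the image of some
`f₀ : U₀ ⟶ V₀`, with `U₀`, `V₀` bounded by `U`, `V`, under one of the base change functors. -/
def Descends {I : Type w'} {M : I → Realised.{v₁, v₂, u₁, u₂} Λ}
    {M' : Realised.{v₁, v₂, u₁, u₂} Λ} (F : ∀ i, BaseChange (M i) M') : Prop :=
  ∀ (U V : M'.T) (f : U ⟶ V), ∃ (i : I) (U₀ V₀ : (M i).T) (f₀ : U₀ ⟶ V₀),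
    Nonempty (RetractArrow f ((F i).P.map f₀)) ∧ Bounded U₀ U ∧ Bounded V₀ V

end Pool.Agent.TH133.TT
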