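import Pool.Agent.TH133.TT.Cons
import Mathlib.CategoryTheory.Monoidal.Functor

/-!
# Non-degenerate tensor t-structures and conservativity
-/

open CategoryTheory Limits MonoidalCategory Triangulated Pretriangulated

universe v₁ v₂ u₁ u₂

namespace Pool.Agent.TH133.TT

set_option linter.style.haveILetI false
set_option linter.unusedSectionVars false

variable {T : Type u₁} [Category.{v₁} T] [Preadditive T] [HasZeroObject T] [HasShift T ℤ]
  [∀ n : ℤ, (shiftFunctor T n).Additive] [Pretriangulated T] [MonoidalCategory T]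
  [BraidedCategory T] [∀ X : T, (tensorLeft X).CommShift ℤ]
  [∀ X : T, (tensorLeft X).IsTriangulated] [∀ X : T, HasRightDual X]
  {D : Type u₂} [Category.{v₂} D] [Preadditive D] [HasZeroObject D] [HasShift D ℤ]
  [∀ n : ℤ, (shiftFunctor D n).Additive] [Pretriangulated D] [MonoidalCategory D]
  [MonoidalPreadditive D]
  {R : T ⥤ D} [R.CommShift ℤ] [R.IsTriangulated] [R.Monoidal] {t : TStructure T}
  {s : TStructure D}

lemma tstructure_ext {t t' : TStructure T} (h1 : ∀ n X, t.le n X ↔ t'.le n X)
    (h2 : ∀ n X, t.ge n X ↔ t'.ge n X) : t = t' := by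
  have e1 : t.le = t'.le := by
    funext n X
    exact propext (h1 n X)
  have e2 : t.ge = t'.ge := by
    funext n X
    exact propext (h2 n X)
  cases t
  cases t'
  simp only at e1 e2
  subst e1 e2
  rfl

lemma map_tensor_isZero (R : T ⥤ D) [R.Monoidal] (X Y : T) (h : IsZero (R.obj Y)) :
    IsZero (R.obj (X ⊗ Y)) := by
  have h1 : IsZero (R.obj X ⊗ R.obj Y) := by
    rw [IsZero.iff_id_eq_zero, ← whiskerLeft_id, (IsZero.iff_id_eq_zero _).1 h,
      MonoidalPreadditive.whiskerLeft_zero]
  exact h1.of_iso (Functor.Monoidal.μIso R X Y).symm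

/-- **Conservativity of realisations** -/
theorem conservative_of (hn : IsNondegenerate t) (ht : IsTensorCompatible t)
    (hR : IsTExact R t s) (hconn : ∀ e : 𝟙_ T ⟶ 𝟙_ T, e ≫ e = e → e = 0 ∨ e = 𝟙 _)
    (hD : ¬ IsZero (𝟙_ D)) (M : T) (hM0 : IsZero (R.obj M)) : IsZero M := by
  refine isZero_of_map hn ht hR hconn (fun h => hD ?_) (map_tensor_isZero R) hM0
  exact h.of_iso (Functor.Monoidal.εIso R)

/-- A conservative t-exact tensor functor forces the t-structure to be non-degenerate and compatible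
with the tensor product. -/
theorem of_conservative (hs : IsNondegenerate s) (hs' : IsTensorCompatible s)
    (hR : IsTExact R t s) (hc : ∀ M : T, IsZero (R.obj M) → IsZero M) :
    IsNondegenerate t ∧ IsTensorCompatible t := by
  refine ⟨⟨fun X hX => hc X (hs.le _ fun n => hR.le X n (hX n)),
    fun X hX => hc X (hs.ge _ fun n => hR.ge X n (hX n))⟩, ⟨fun X Y m n hX hY => ?_,
    fun X Y m n hX hY => ?_⟩⟩
  · rw [le_iff_of_conservative hR hc]
    exact le_of_iso s (Functor.Monoidal.μIso R X Y)
      (hs'.le _ _ m n (hR.le _ _ hX) (hR.le _ _ hY))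
  · rw [ge_iff_of_conservative hR hc]
    exact ge_of_iso s (Functor.Monoidal.μIso R X Y)
      (hs'.ge _ _ m n (hR.ge _ _ hX) (hR.ge _ _ hY))

end Pool.Agent.TH133.TT
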