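import Pool.Agent.TH133.TT.Split
import Pool.Agent.TH133.TT.Main
import Pool.Agent.TH133.TT.DefsReal

/-!
# Descent of motivic t-structures
-/

open CategoryTheory Limits MonoidalCategory Triangulated Pretriangulated

universe v₁ v₂ u₁ u₂ w w'

namespace Pool.Agent.TH133.TT

set_option linter.style.haveILetI false

variable {Λ : Type w} {M M' : Realised.{v₁, v₂, u₁, u₂} Λ}

lemma le_of_isZero {T : Type u₁} [Category.{v₁} T] [Preadditive T] [HasZeroObject T]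
    [HasShift T ℤ] [∀ n : ℤ, (shiftFunctor T n).Additive] [Pretriangulated T] (t : TStructure T)
    {X : T} (hX : IsZero X) (n : ℤ) : t.le n X :=
  le_of_hom t fun _ _ _ => hX.eq_of_src _ _

lemma ge_of_isZero {T : Type u₁} [Category.{v₁} T] [Preadditive T] [HasZeroObject T]
    [HasShift T ℤ] [∀ n : ℤ, (shiftFunctor T n).Additive] [Pretriangulated T] (t : TStructure T)
    {X : T} (hX : IsZero X) (n : ℤ) : t.ge n X :=
  ge_of_hom t fun _ _ _ => hX.eq_of_tgt _ _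

lemma eq_zero_of_retractArrow {C : Type u₁} [Category.{v₁} C] [Preadditive C] {X Y Z W : C}
    {f : X ⟶ Y} {g : Z ⟶ W} (r : RetractArrow f g) (hg : g = 0) : f = 0 := by
  have h5 : r.i.left ≫ r.r.left = 𝟙 X := r.retract_left
  have h6 : r.r.left ≫ f = g ≫ r.r.right := r.r_w
  have h7 : (r.i.left ≫ r.r.left) ≫ f = f :=
    (congrArg (· ≫ f) h5).trans (Category.id_comp f)
  have h8 : r.i.left ≫ (r.r.left ≫ f) = r.i.left ≫ (g ≫ r.r.right) :=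
    congrArg (r.i.left ≫ ·) h6
  have h9 : g ≫ r.r.right = 0 := (congrArg (· ≫ r.r.right) hg).trans zero_comp
  exact h7.symm.trans ((Category.assoc _ _ _).trans (h8.trans
    ((congrArg (r.i.left ≫ ·) h9).trans comp_zero)))

/-- Under a motivic t-structure the realisations are conservative. -/
lemma Realised.isZero_of (M : Realised.{v₁, v₂, u₁, u₂} Λ) {t : TStructure M.T}
    (hn : IsNondegenerate t) (ht : IsTensorCompatible t) {ℓ : Λ}
    (hR : IsTExact (M.R ℓ) t (M.s ℓ)) {A : M.T} (h : IsZero ((M.R ℓ).obj A)) : IsZero A :=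
  conservative_of hn ht hR M.connected (M.unit_ne ℓ) A h

lemma Realised.le_iff (M : Realised.{v₁, v₂, u₁, u₂} Λ) {t : TStructure M.T}
    (hn : IsNondegenerate t) (ht : IsTensorCompatible t) {ℓ : Λ}
    (hR : IsTExact (M.R ℓ) t (M.s ℓ)) (A : M.T) (n : ℤ) :
    t.le n A ↔ (M.s ℓ).le n ((M.R ℓ).obj A) :=
  le_iff_of_conservative hR (fun _ h => M.isZero_of hn ht hR h) A n

lemma Realised.ge_iff (M : Realised.{v₁, v₂, u₁, u₂} Λ) {t : TStructure M.T}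
    (hn : IsNondegenerate t) (ht : IsTensorCompatible t) {ℓ : Λ}
    (hR : IsTExact (M.R ℓ) t (M.s ℓ)) (A : M.T) (n : ℤ) :
    t.ge n A ↔ (M.s ℓ).ge n ((M.R ℓ).obj A) :=
  ge_iff_of_conservative hR (fun _ h => M.isZero_of hn ht hR h) A n

/-- **Subfields.** -/
theorem hasMotivicTStructure_of_faithful [Nonempty Λ] (F : BaseChange M M')
    (hF : F.P.Faithful) (hs : F.Specialises) (h : M'.HasMotivicTStructure) :
    M.HasMotivicTStructure := by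
  obtain ⟨t', hn, ht, hR⟩ := h
  have ℓ₀ : Λ := Classical.arbitrary Λ
  have hle : ∀ (ℓ : Λ) (n : ℤ) (A : M.T),
      t'.le n (F.P.obj A) ↔ (M.s ℓ).le n ((M.R ℓ).obj A) := fun ℓ n A =>
    (M'.le_iff hn ht (hR ℓ) _ n).trans (F.le_iff ℓ n A)
  have hge : ∀ (ℓ : Λ) (n : ℤ) (A : M.T),
      t'.ge n (F.P.obj A) ↔ (M.s ℓ).ge n ((M.R ℓ).obj A) := fun ℓ n A =>
    (M'.ge_iff hn ht (hR ℓ) _ n).trans (F.ge_iff ℓ n A)
  have hvan : ∀ (U V : M.T) (a : U ⟶ V), t'.le 0 (F.P.obj U) → t'.ge 1 (F.P.obj V) → a = 0 := by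
    intro U V a hU hV
    apply F.P.map_injective
    rw [hom_zero t' (F.P.map a) (m := 0) (n := 1) (by omega) hU hV, Functor.map_zero]
  have hshle : ∀ (n a n' : ℤ) (_ : a + n' = n) (X : M.T), t'.le n (F.P.obj X) →
      t'.le n' (F.P.obj (X⟦a⟧)) := fun n a n' hn X hX =>
    le_of_iso t' ((F.P.commShiftIso a).app X).symm (t'.le_shift n a n' hn _ hX)
  have hshge : ∀ (n a n' : ℤ) (_ : a + n' = n) (X : M.T), t'.ge n (F.P.obj X) →
      t'.ge n' (F.P.obj (X⟦a⟧)) := fun n a n' hn X hX =>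
    ge_of_iso t' ((F.P.commShiftIso a).app X).symm (t'.ge_shift n a n' hn _ hX)
  have htr : ∀ A : M.T, ∃ (Y K : M.T) (_ : t'.le 0 (F.P.obj Y)) (_ : t'.ge 1 (F.P.obj K))
      (f' : Y ⟶ A) (g' : A ⟶ K) (w' : K ⟶ Y⟦(1 : ℤ)⟧),
      Triangle.mk f' g' w' ∈ distTriang M.T := by
    intro A
    obtain ⟨U, V, hU, hV, f, g, w, hT⟩ := t'.exists_triangle_zero_one (F.P.obj A)
    obtain ⟨U₀, X, V₀, f₀, g₀, w₀, hT₀, ⟨r⟩, hU₀, hV₀⟩ := hs A U V f g w hT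
    refine exists_truncation_of_retract (fun Y => t'.le 0 (F.P.obj Y))
      (fun Y => t'.ge 1 (F.P.obj Y)) ?_ ?_ ?_ hvan hT₀ ?_ ?_ r.i r.r r.retract
    · intro Y Z i p hip hZ
      exact le_of_retract t' (F.P.map i) (F.P.map p) (by
        rw [← CategoryTheory.Functor.map_comp, hip, CategoryTheory.Functor.map_id]) hZ
    · intro Y Z i p hip hZ
      exact ge_of_retract t' (F.P.map i) (F.P.map p) (by
        rw [← CategoryTheory.Functor.map_comp, hip, CategoryTheory.Functor.map_id]) hZ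
    · intro Y hY
      exact le_mono t' (by omega) (hshle 0 1 (-1) (by omega) Y hY)
    · exact (hle ℓ₀ 0 U₀).2 ((hU₀ ℓ₀ 0).1 ((M'.le_iff hn ht (hR ℓ₀) _ 0).1 hU))
    · exact (hge ℓ₀ 1 V₀).2 ((hV₀ ℓ₀ 1).2 ((M'.ge_iff hn ht (hR ℓ₀) _ 1).1 hV))
  let t : TStructure M.T :=
    { le := fun n => (t'.le n).inverseImage F.P
      ge := fun n => (t'.ge n).inverseImage F.P
      le_shift := hshle
      ge_shift := hshge
      zero' := fun X Y f hX hY => hvan X Y f hX hY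
      le_zero_le := fun X hX => t'.le_zero_le _ hX
      ge_one_le := fun X hX => t'.ge_one_le _ hX
      exists_triangle_zero_one := htr }
  have htR : ∀ ℓ : Λ, IsTExact (M.R ℓ) t (M.s ℓ) := fun ℓ =>
    ⟨fun A n hA => (hle ℓ n A).1 hA, fun A n hA => (hge ℓ n A).1 hA⟩
  have hc : ∀ A : M.T, IsZero ((M.R ℓ₀).obj A) → IsZero A := by
    intro A hA
    have h1 : IsZero ((M'.R ℓ₀).obj (F.P.obj A)) :=
      (M'.nondegenerate ℓ₀).le _ fun n => (F.le_iff ℓ₀ n A).2 (le_of_isZero _ hA n)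
    have h2 := M'.isZero_of hn ht (hR ℓ₀) h1
    rw [IsZero.iff_id_eq_zero]
    apply F.P.map_injective
    rw [Functor.map_zero]
    exact h2.eq_of_src _ _
  obtain ⟨h1, h2⟩ := of_conservative (M.nondegenerate ℓ₀) (M.tensorCompatible ℓ₀) (htR ℓ₀) hc
  exact ⟨t, h1, h2, htR⟩

/-- **Unions and algebraic extensions.** -/
theorem hasMotivicTStructure_of_descends [Nonempty Λ] {I : Type w'}
    {M : I → Realised.{v₁, v₂, u₁, u₂} Λ} (F : ∀ i, BaseChange (M i) M') (hF : Descends F)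
    (h : ∀ i, (M i).HasMotivicTStructure) : M'.HasMotivicTStructure := by
  choose t hn ht hR using h
  have ℓ₀ : Λ := Classical.arbitrary Λ
  have hobj : ∀ N : M'.T, ∃ (i : I) (U : (M i).T), Nonempty (Retract N ((F i).P.obj U)) ∧
      Bounded U N := by
    intro N
    obtain ⟨i, U, V, f, ⟨r⟩, hU, -⟩ := hF N N (𝟙 N)
    exact ⟨i, U, ⟨r.left⟩, hU⟩
  -- independence of `ℓ`
  have hle : ∀ (ℓ ℓ' : Λ) (n : ℤ) (N : M'.T), (M'.s ℓ).le n ((M'.R ℓ).obj N) →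
      (M'.s ℓ').le n ((M'.R ℓ').obj N) := by
    intro ℓ ℓ' n N hN
    obtain ⟨i, U, ⟨r⟩, hU⟩ := hobj N
    have h1 := ((M i).le_iff (hn i) (ht i) (hR i ℓ) U n).2 ((hU ℓ n).1 hN)
    have h2 := ((F i).le_iff ℓ' n U).2 (((M i).le_iff (hn i) (ht i) (hR i ℓ') U n).1 h1)
    exact le_of_retract _ ((M'.R ℓ').map r.i) ((M'.R ℓ').map r.r) (by
      rw [← CategoryTheory.Functor.map_comp, r.retract, CategoryTheory.Functor.map_id]) h2
  have hge : ∀ (ℓ ℓ' : Λ) (n : ℤ) (N : M'.T), (M'.s ℓ).ge n ((M'.R ℓ).obj N) →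
      (M'.s ℓ').ge n ((M'.R ℓ').obj N) := by
    intro ℓ ℓ' n N hN
    obtain ⟨i, U, ⟨r⟩, hU⟩ := hobj N
    have h1 := ((M i).ge_iff (hn i) (ht i) (hR i ℓ) U n).2 ((hU ℓ n).2 hN)
    have h2 := ((F i).ge_iff ℓ' n U).2 (((M i).ge_iff (hn i) (ht i) (hR i ℓ') U n).1 h1)
    exact ge_of_retract _ ((M'.R ℓ').map r.i) ((M'.R ℓ').map r.r) (by
      rw [← CategoryTheory.Functor.map_comp, r.retract, CategoryTheory.Functor.map_id]) h2
  have hvan : ∀ (U V : M'.T) (a : U ⟶ V), (M'.s ℓ₀).le 0 ((M'.R ℓ₀).obj U) →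
      (M'.s ℓ₀).ge 1 ((M'.R ℓ₀).obj V) → a = 0 := by
    intro U V a hU hV
    obtain ⟨i, U₀, V₀, f₀, ⟨r⟩, hU₀, hV₀⟩ := hF U V a
    have h1 := ((M i).le_iff (hn i) (ht i) (hR i ℓ₀) U₀ 0).2 ((hU₀ ℓ₀ 0).1 hU)
    have h2 := ((M i).ge_iff (hn i) (ht i) (hR i ℓ₀) V₀ 1).2 ((hV₀ ℓ₀ 1).2 hV)
    have h3 : f₀ = 0 := hom_zero (t i) f₀ (m := 0) (n := 1) (by omega) h1 h2
    exact eq_zero_of_retractArrow r (by rw [h3, Functor.map_zero])
  have hshle : ∀ (n a n' : ℤ) (_ : a + n' = n) (X : M'.T), (M'.s ℓ₀).le n ((M'.R ℓ₀).obj X) →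
      (M'.s ℓ₀).le n' ((M'.R ℓ₀).obj (X⟦a⟧)) := fun n a n' hn X hX =>
    le_of_iso _ (((M'.R ℓ₀).commShiftIso a).app X).symm ((M'.s ℓ₀).le_shift n a n' hn _ hX)
  have hshge : ∀ (n a n' : ℤ) (_ : a + n' = n) (X : M'.T), (M'.s ℓ₀).ge n ((M'.R ℓ₀).obj X) →
      (M'.s ℓ₀).ge n' ((M'.R ℓ₀).obj (X⟦a⟧)) := fun n a n' hn X hX =>
    ge_of_iso _ (((M'.R ℓ₀).commShiftIso a).app X).symm ((M'.s ℓ₀).ge_shift n a n' hn _ hX)
  have htr : ∀ N : M'.T, ∃ (Y K : M'.T) (_ : (M'.s ℓ₀).le 0 ((M'.R ℓ₀).obj Y))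
      (_ : (M'.s ℓ₀).ge 1 ((M'.R ℓ₀).obj K)) (f' : Y ⟶ N) (g' : N ⟶ K)
      (w' : K ⟶ Y⟦(1 : ℤ)⟧), Triangle.mk f' g' w' ∈ distTriang M'.T := by
    intro N
    obtain ⟨i, U, ⟨r⟩, hU⟩ := hobj N
    obtain ⟨A, B, hA, hB, f, g, w, hT⟩ := (t i).exists_triangle_zero_one U
    obtain ⟨w', hT'⟩ := map_dist (F i).P hT
    refine exists_truncation_of_retract (fun Y => (M'.s ℓ₀).le 0 ((M'.R ℓ₀).obj Y))
      (fun Y => (M'.s ℓ₀).ge 1 ((M'.R ℓ₀).obj Y)) ?_ ?_ ?_ hvan hT' ?_ ?_ r.i r.r r.retract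
    · intro Y Z i p hip hZ
      exact le_of_retract _ ((M'.R ℓ₀).map i) ((M'.R ℓ₀).map p) (by
        rw [← CategoryTheory.Functor.map_comp, hip, CategoryTheory.Functor.map_id]) hZ
    · intro Y Z i p hip hZ
      exact ge_of_retract _ ((M'.R ℓ₀).map i) ((M'.R ℓ₀).map p) (by
        rw [← CategoryTheory.Functor.map_comp, hip, CategoryTheory.Functor.map_id]) hZ
    · intro Y hY
      exact le_mono _ (by omega) (hshle 0 1 (-1) (by omega) Y hY)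
    · exact ((F i).le_iff ℓ₀ 0 A).2 (((M i).le_iff (hn i) (ht i) (hR i ℓ₀) A 0).1 hA)
    · exact ((F i).ge_iff ℓ₀ 1 B).2 (((M i).ge_iff (hn i) (ht i) (hR i ℓ₀) B 1).1 hB)
  let t' : TStructure M'.T :=
    { le := fun n => ((M'.s ℓ₀).le n).inverseImage (M'.R ℓ₀)
      ge := fun n => ((M'.s ℓ₀).ge n).inverseImage (M'.R ℓ₀)
      le_shift := hshle
      ge_shift := hshge
      zero' := fun X Y f hX hY => hvan X Y f hX hY
      le_zero_le := fun X hX => (M'.s ℓ₀).le_zero_le _ hX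
      ge_one_le := fun X hX => (M'.s ℓ₀).ge_one_le _ hX
      exists_triangle_zero_one := htr }
  have htR : ∀ ℓ : Λ, IsTExact (M'.R ℓ) t' (M'.s ℓ) := fun ℓ =>
    ⟨fun A n hA => hle ℓ₀ ℓ n A hA, fun A n hA => hge ℓ₀ ℓ n A hA⟩
  have hc : ∀ A : M'.T, IsZero ((M'.R ℓ₀).obj A) → IsZero A := by
    intro A hA
    obtain ⟨i, U, ⟨r⟩, hU⟩ := hobj A
    have h1 : IsZero (((M i).R ℓ₀).obj U) :=
      ((M i).nondegenerate ℓ₀).le _ fun n => (hU ℓ₀ n).1 (le_of_isZero _ hA n)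
    have h2 := (F i).P.map_isZero ((M i).isZero_of (hn i) (ht i) (hR i ℓ₀) h1)
    rw [IsZero.iff_id_eq_zero, ← r.retract, h2.eq_of_tgt r.i 0, zero_comp]
  obtain ⟨h1, h2⟩ := of_conservative (M'.nondegenerate ℓ₀) (M'.tensorCompatible ℓ₀) (htR ℓ₀) hc
  exact ⟨t', h1, h2, htR⟩

end Pool.Agent.TH133.TT
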