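import Pool.Agent.TH133.TT.Descent
import Pool.Agent.TH133.TT.DefsField
import Mathlib.FieldTheory.IsAlgClosed.AlgebraicClosure
import Mathlib.RingTheory.AlgebraicIndependent.TranscendenceBasis
import Mathlib.Algebra.Algebra.ZMod

/-!
# Fields of infinite transcendence degree
-/

open Algebra CategoryTheory

universe u v₁ v₂ u₁ u₂ w

namespace Pool.Agent.TH133.TT

set_option linter.style.haveILetI false

/-- A finitely generated field is algebraic over the subalgebra generated by the generators. -/
lemma isAlgebraic_of_closure {R K : Type*} [CommRing R] [Field K] [Algebra R K] (s : Set K)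
    (h : Subfield.closure s = ⊤) : Algebra.IsAlgebraic (adjoin R s) K := by
  constructor
  intro x
  have hx : x ∈ Subfield.closure s := h ▸ Subfield.mem_top x
  rw [Subfield.mem_closure_iff] at hx
  obtain ⟨y, hy, z, hz, rfl⟩ := hx
  have hsub : Subring.closure s ≤ (adjoin R s).toSubring := by
    rw [Subring.closure_le]
    exact subset_adjoin
  have h1 : IsAlgebraic (adjoin R s) y := by
    simpa using isAlgebraic_algebraMap (R := adjoin R s) (A := K) ⟨y, hsub hy⟩
  have h2 : IsAlgebraic (adjoin R s) z := by
    simpa using isAlgebraic_algebraMap (R := adjoin R s) (A := K) ⟨z, hsub hz⟩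
  rw [div_eq_mul_inv]
  exact h1.mul h2.inv

/-- Finitely generated fields embed into algebraically closed fields of at least the same
transcendence degree. -/
lemma exists_embedding {R : Type*} {K L : Type u} [CommRing R] [Field K] [Algebra R K] [Field L]
    [Algebra R L] [IsAlgClosed L] [FaithfulSMul R K] [FaithfulSMul R L] (s : Set K)
    (hs : s.Finite) (h : Subfield.closure s = ⊤) (hd : trdeg R K ≤ trdeg R L) :
    Nonempty (K →+* L) := by
  haveI := isAlgebraic_of_closure (R := R) s h
  obtain ⟨t, hts, ht⟩ := exists_isTranscendenceBasis_subset (R := R) s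
  obtain ⟨b, hb⟩ := exists_isTranscendenceBasis R L
  haveI : IsDomain R := (FaithfulSMul.algebraMap_injective R K).isDomain _
  have hcard : Cardinal.mk t ≤ Cardinal.mk b := by
    rw [ht.cardinalMk_eq_trdeg, hb.cardinalMk_eq_trdeg]
    exact hd
  obtain ⟨e⟩ := Cardinal.le_def _ _ |>.1 hcard
  have hy : AlgebraicIndependent R (((↑) : b → L) ∘ e) := hb.1.comp e e.injective
  have ht' : AlgebraicIndependent R ((↑) : t → K) := ht.1
  let f : adjoin R (Set.range ((↑) : t → K)) →ₐ[R] L :=
    (MvPolynomial.aeval (((↑) : b → L) ∘ e)).comp (ht'.aevalEquiv.symm : _ →ₐ[R] _)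
  have hf : Function.Injective f := fun a b hab =>
    ht'.aevalEquiv.symm.injective (algebraicIndependent_iff_injective_aeval.1 hy hab)
  haveI := ht.isAlgebraic
  letI := f.toRingHom.toAlgebra
  haveI : Module.IsTorsionFree (adjoin R (Set.range ((↑) : t → K))) L := by
    rw [Module.isTorsionFree_iff_algebraMap_injective]
    exact hf
  exact ⟨(IsAlgClosed.lift (R := adjoin R (Set.range ((↑) : t → K))) (S := K)
    (M := L)).toRingHom⟩

lemma faithful_zmod (p : ℕ) (K : Type u) [Field K] [CharP K p] [Algebra (ZMod p) K] :
    FaithfulSMul (ZMod p) K := by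
  rw [faithfulSMul_iff_algebraMap_injective, show algebraMap (ZMod p) K =
    ZMod.castHom (dvd_refl p) K from RingHom.ext_zmod _ _]
  exact ZMod.castHom_injective _

/-- The case of a subfield generated by a finite set. -/
lemma exists_embedding_closure (p : ℕ) {K L : Type u} [Field K] [CharP K p]
    [Algebra (ZMod p) K] [Field L] [CharP L p] [IsAlgClosed L] [Algebra (ZMod p) L] (s : Set K)
    (hs : s.Finite) (h : min Cardinal.aleph0 (trdeg (ZMod p) K) ≤ trdeg (ZMod p) L) :
    Nonempty (Subfield.closure s →+* L) := by
  letI := ZMod.algebra (Subfield.closure s) p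
  haveI := faithful_zmod p (Subfield.closure s)
  haveI := faithful_zmod p L
  let s' : Set (Subfield.closure s) := {a | (a : K) ∈ s}
  have hs' : s'.Finite := hs.preimage Subtype.val_injective.injOn
  have him : (Subfield.closure s).subtype '' s' = s := by
    ext a
    constructor
    · rintro ⟨b, hb, rfl⟩
      exact hb
    · intro ha
      exact ⟨⟨a, Subfield.subset_closure ha⟩, ha, rfl⟩
  have h1 : (Subfield.closure s').map (Subfield.closure s).subtype = Subfield.closure s := by
    rw [RingHom.map_field_closure, him]
  have htop : Subfield.closure s' = ⊤ := by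
    rw [_root_.eq_top_iff]
    intro a _
    have h2 : (a : K) ∈ (Subfield.closure s').map (Subfield.closure s).subtype := by
      rw [h1]
      exact a.2
    obtain ⟨b, hb, hab⟩ := Subfield.mem_map.1 h2
    have : b = a := Subtype.ext hab
    exact this ▸ hb
  refine exists_embedding (R := ZMod p) s' hs' htop (le_trans (le_min ?_ ?_) h)
  · haveI := isAlgebraic_of_closure (R := ZMod p) s' htop
    exact (Algebra.IsAlgebraic.trdeg_le_cardinalMk (ZMod p) s').trans hs'.lt_aleph0.le
  · let f : Subfield.closure s →ₐ[ZMod p] K :=
      { (Subfield.closure s).subtype with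
        commutes' := fun r => congrArg (fun g : ZMod p →+* K => g r)
          (RingHom.ext_zmod ((Subfield.closure s).subtype.comp (algebraMap (ZMod p) _))
            (algebraMap (ZMod p) K)) }
    exact trdeg_le_of_injective f Subtype.val_injective

/-- **The transcendence degree decides.** -/
theorem hasMotivicTStructure_of_trdeg {p : ℕ} {Λ : Type w} [Nonempty Λ]
    (M : FieldMotives.{u, v₁, v₂, u₁, u₂} p Λ) (k K : Type u) [Field k] [CharP k p]
    [Algebra (ZMod p) k] [Field K] [CharP K p] [Algebra (ZMod p) K]
    (h : min Cardinal.aleph0 (trdeg (ZMod p) k) ≤ trdeg (ZMod p) K)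
    (hK : (M.obj K).HasMotivicTStructure) : (M.obj k).HasMotivicTStructure := by
  let L := AlgebraicClosure K
  haveI : CharP L p := charP_of_injective_algebraMap (algebraMap K L).injective p
  have hL : (M.obj L).HasMotivicTStructure :=
    hasMotivicTStructure_of_descends (fun _ : Unit => M.map (algebraMap K L)) M.algebraic
      fun _ => hK
  have hKL : trdeg (ZMod p) K ≤ trdeg (ZMod p) L :=
    trdeg_le_of_injective (IsScalarTower.toAlgHom (ZMod p) K L) (algebraMap K L).injective
  refine hasMotivicTStructure_of_descends _ (M.finitelyGenerated k) ?_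
  rintro ⟨_, s, hs, rfl⟩
  obtain ⟨φ⟩ := exists_embedding_closure p (L := L) s hs (h.trans hKL)
  exact hasMotivicTStructure_of_faithful (M.map φ) (M.faithful φ) (M.specialises φ) hL

end Pool.Agent.TH133.TT
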