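import Pool.Agent.TH133.TT.Cons
import Mathlib.CategoryTheory.Idempotents.Basic

/-!
# Truncation triangles of retracts
-/

open CategoryTheory Limits MonoidalCategory Triangulated Pretriangulated

universe v₁ v₂ u₁ u₂

namespace Pool.Agent.TH133.TT

set_option linter.style.haveILetI false
set_option linter.unusedSectionVars false

variable {T : Type u₁} [Category.{v₁} T] [Preadditive T] [HasZeroObject T] [HasShift T ℤ]
  [∀ n : ℤ, (shiftFunctor T n).Additive] [Pretriangulated T]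

lemma le_of_retract (t : TStructure T) {X Y : T} (i : X ⟶ Y) (p : Y ⟶ X) (h : i ≫ p = 𝟙 X)
    {n : ℤ} (hY : t.le n Y) : t.le n X := by
  apply le_of_hom
  intro Z hZ a
  rw [← Category.id_comp a, ← h, Category.assoc, hom_zero t (p ≫ a) (by omega) hY hZ, comp_zero]

lemma ge_of_retract (t : TStructure T) {X Y : T} (i : X ⟶ Y) (p : Y ⟶ X) (h : i ≫ p = 𝟙 X)
    {n : ℤ} (hY : t.ge n Y) : t.ge n X := by
  apply ge_of_hom
  intro Z hZ a
  rw [← Category.comp_id a, ← h, ← Category.assoc, hom_zero t (a ≫ i) (by omega) hZ hY,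
    zero_comp]

/-- Retracts of arrows have retracts as cones. -/
lemma cone_retract {A X B A' X' B' : T} {f : A ⟶ X} {g : X ⟶ B} {w : B ⟶ A⟦(1 : ℤ)⟧}
    {j : A' ⟶ X'} {g' : X' ⟶ B'} {w' : B' ⟶ A'⟦(1 : ℤ)⟧}
    (hT : Triangle.mk f g w ∈ distTriang T) (hT' : Triangle.mk j g' w' ∈ distTriang T)
    (ι : A' ⟶ A) (π : A ⟶ A') (hι : ι ≫ π = 𝟙 A') (i : X' ⟶ X) (p : X ⟶ X')
    (hi : i ≫ p = 𝟙 X') (h1 : ι ≫ f = j ≫ i) (h2 : π ≫ j = f ≫ p) :
    ∃ (c : B' ⟶ B) (d : B ⟶ B'), c ≫ d = 𝟙 B' := by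
  obtain ⟨c, hc1, hc2⟩ : ∃ c : B' ⟶ B, g' ≫ c = i ≫ g ∧ w' ≫ ι⟦(1 : ℤ)⟧' = c ≫ w :=
    complete_distinguished_triangle_morphism _ _ hT' hT ι i h1.symm
  obtain ⟨d, hd1, hd2⟩ : ∃ d : B ⟶ B', g ≫ d = p ≫ g' ∧ w ≫ π⟦(1 : ℤ)⟧' = d ≫ w' :=
    complete_distinguished_triangle_morphism _ _ hT hT' π p h2.symm
  let φ : Triangle.mk j g' w' ⟶ Triangle.mk f g w := Triangle.homMk _ _ ι i c h1.symm hc1 hc2
  let ψ : Triangle.mk f g w ⟶ Triangle.mk j g' w' := Triangle.homMk _ _ π p d h2.symm hd1 hd2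
  have e1 : IsIso (φ ≫ ψ).hom₁ := by
    change IsIso (ι ≫ π)
    rw [hι]
    infer_instance
  have e2 : IsIso (φ ≫ ψ).hom₂ := by
    change IsIso (i ≫ p)
    rw [hi]
    infer_instance
  have e3 : IsIso (φ ≫ ψ).hom₃ := isIso₃_of_isIso₁₂ (φ ≫ ψ) hT' hT' e1 e2
  have e4 : IsIso (c ≫ d) := e3
  exact ⟨c, d ≫ inv (c ≫ d), by rw [← Category.assoc, IsIso.hom_inv_id]⟩

/-- **Truncation triangles of retracts.** -/
theorem exists_truncation_of_retract [IsIdempotentComplete T] (LE GE : T → Prop)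
    (hLE : ∀ (X Y : T) (i : X ⟶ Y) (p : Y ⟶ X), i ≫ p = 𝟙 X → LE Y → LE X)
    (hGE : ∀ (X Y : T) (i : X ⟶ Y) (p : Y ⟶ X), i ≫ p = 𝟙 X → GE Y → GE X)
    (hsh : ∀ X : T, LE X → LE (X⟦(1 : ℤ)⟧))
    (hvan : ∀ (U V : T) (a : U ⟶ V), LE U → GE V → a = 0)
    {A X B : T} {f : A ⟶ X} {g : X ⟶ B} {w : B ⟶ A⟦(1 : ℤ)⟧}
    (hT : Triangle.mk f g w ∈ distTriang T) (hA : LE A) (hB : GE B) {M : T} (i : M ⟶ X)
    (p : X ⟶ M) (hip : i ≫ p = 𝟙 M) :
    ∃ (Y K : T) (_ : LE Y) (_ : GE K) (f' : Y ⟶ M) (g' : M ⟶ K) (w' : K ⟶ Y⟦(1 : ℤ)⟧),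
      Triangle.mk f' g' w' ∈ distTriang T := by
  have hmono : ∀ (Z : T) (a : Z ⟶ A), LE Z → a ≫ f = 0 → a = 0 := by
    intro Z a hZ ha
    obtain ⟨b, hb⟩ := co1 hT (a⟦(1 : ℤ)⟧') (by
      rw [← CategoryTheory.Functor.map_comp, ha, Functor.map_zero])
    have hb0 : b = 0 := hvan _ _ b (hsh Z hZ) hB
    apply (shiftFunctor T (1 : ℤ)).map_injective
    rw [Functor.map_zero, hb, hb0, zero_comp]
  obtain ⟨eA, heA⟩ := co2 hT (f ≫ p ≫ i) (hvan _ _ _ hA hB)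
  have hidem : eA ≫ eA = eA := by
    rw [← sub_eq_zero]
    apply hmono _ _ hA
    rw [Preadditive.sub_comp, sub_eq_zero, Category.assoc, ← heA, ← Category.assoc eA, ← heA]
    simp only [Category.assoc]
    rw [← Category.assoc i p, hip, Category.id_comp]
  obtain ⟨Y, ι, π, hιπ, hπι⟩ := IsIdempotentComplete.idempotents_split A eA hidem
  obtain ⟨K, g', w', hT'⟩ := distinguished_cocone_triangle (ι ≫ f ≫ p)
  obtain ⟨c, d, hcd⟩ := cone_retract hT hT' ι π hιπ i p hip (by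
    rw [Category.assoc, Category.assoc, heA, ← Category.assoc ι eA, ← hπι, ← Category.assoc ι,
      hιπ, Category.id_comp]) (by
    rw [← Category.assoc π, hπι, ← Category.assoc eA, ← heA]
    simp only [Category.assoc]
    rw [hip, Category.comp_id])
  exact ⟨Y, K, hLE _ _ ι π hιπ hA, hGE _ _ c d hcd hB, _, g', w', hT'⟩

end Pool.Agent.TH133.TT
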