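import Pool.Agent.TH133.TT.Basic

/-!
# Tensor triangulated categories with a compatible t-structure
-/

open CategoryTheory Limits MonoidalCategory Triangulated Pretriangulated

universe v₁ v₂ u₁ u₂

namespace Pool.Agent.TH133.TT

set_option linter.style.haveILetI false
set_option linter.unusedSectionVars false

variable {T : Type u₁} [Category.{v₁} T] [Preadditive T] [HasZeroObject T] [HasShift T ℤ]
  [∀ n : ℤ, (shiftFunctor T n).Additive] [Pretriangulated T] [MonoidalCategory T]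
  [BraidedCategory T] [∀ X : T, (tensorLeft X).CommShift ℤ]
  [∀ X : T, (tensorLeft X).IsTriangulated]

lemma isZero_tensor (X : T) {Y : T} (h : IsZero Y) : IsZero (X ⊗ Y) :=
  (tensorLeft X).map_isZero h

lemma isZero_swap {X Y : T} (h : IsZero (X ⊗ Y)) : IsZero (Y ⊗ X) := h.of_iso (β_ Y X)

lemma isZero_tensor' {X : T} (Y : T) (h : IsZero X) : IsZero (X ⊗ Y) :=
  isZero_swap (isZero_tensor Y h)

/-- Tensoring a distinguished triangle. -/
lemma tensor_dist (M : T) {X Y Z : T} {f : X ⟶ Y} {g : Y ⟶ Z} {w : Z ⟶ X⟦(1 : ℤ)⟧}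
    (hT : Triangle.mk f g w ∈ distTriang T) :
    ∃ w' : M ⊗ Z ⟶ (M ⊗ X)⟦(1 : ℤ)⟧, Triangle.mk (M ◁ f) (M ◁ g) w' ∈ distTriang T :=
  ⟨_, (tensorLeft M).map_distinguished _ hT⟩

lemma isZero_tensor_shift (X : T) {Y : T} (n : ℤ) (h : IsZero (X ⊗ Y)) :
    IsZero (X ⊗ Y⟦n⟧) :=
  (isZero_shift n h).of_iso (((tensorLeft X).commShiftIso n).app Y)

/-- The dual `V'` of `V` is a retract of `V' ⊗ (V ⊗ V')`. -/
lemma dual_retract (V V' : T) [ExactPairing V V'] :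
    ∃ (i : V' ⟶ V' ⊗ (V ⊗ V')) (p : V' ⊗ (V ⊗ V') ⟶ V'), i ≫ p = 𝟙 V' := by
  refine ⟨(ρ_ V').inv ≫ V' ◁ η_ V V', (α_ V' V V').inv ≫ ε_ V V' ▷ V' ≫ (λ_ V').hom, ?_⟩
  have h := ExactPairing.coevaluation_evaluation V V'
  rw [Category.assoc]
  have h2 : V' ◁ η_ V V' ≫ (α_ V' V V').inv ≫ ε_ V V' ▷ V' ≫ (λ_ V').hom = (ρ_ V').hom := by
    rw [← Category.assoc (α_ V' V V').inv, ← Category.assoc (V' ◁ _), h, Category.assoc,
      Iso.inv_hom_id, Category.comp_id]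
  rw [h2, Iso.inv_hom_id]

lemma isZero_of_retract {X Y : T} (i : X ⟶ Y) (p : Y ⟶ X) (h : i ≫ p = 𝟙 X) (hY : IsZero Y) :
    IsZero X := by
  rw [IsZero.iff_id_eq_zero, ← h, hY.eq_of_tgt i 0, zero_comp]

/-- If `U ⊗ V = 0` then `U ⊗ V' = 0` for the dual `V'` of `V`. -/
lemma isZero_dual {U V V' : T} [ExactPairing V V'] (h : IsZero (U ⊗ V)) : IsZero (U ⊗ V') := by
  obtain ⟨i, p, hip⟩ := dual_retract V V'
  refine isZero_of_retract (U ◁ i) (U ◁ p) ?_ ?_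
  · rw [← whiskerLeft_comp, hip, whiskerLeft_id]
  · have e : U ⊗ (V' ⊗ (V ⊗ V')) ≅ (U ⊗ V) ⊗ (V' ⊗ V') :=
      (whiskerLeftIso U ((β_ V' (V ⊗ V')) ≪≫ α_ V V' V')) ≪≫ (α_ U V (V' ⊗ V')).symm
    exact (isZero_tensor' _ h).of_iso e

/-- If `V ⊗ V = 0` then `V = 0`. -/
lemma isZero_of_sq {V V' : T} [ExactPairing V V'] (h : IsZero (V ⊗ V)) : IsZero V := by
  have h1 : IsZero (V ⊗ V') := isZero_dual h
  have h2 := ExactPairing.evaluation_coevaluation V V'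
  rw [IsZero.iff_id_eq_zero]
  have h3 : η_ V V' = 0 := h1.eq_of_tgt _ _
  have h4 : η_ V V' ▷ V = 0 := by
    have h5 : IsZero ((V ⊗ V') ⊗ V) := isZero_tensor' _ h1
    exact h5.eq_of_tgt _ _
  rw [h4, zero_comp] at h2
  have h5 : 𝟙 V = (λ_ V).inv ≫ ((λ_ V).hom ≫ (ρ_ V).inv) ≫ (ρ_ V).hom := by simp
  rw [h5, ← h2, zero_comp, comp_zero]

/-- If `U ⊗ V = 0` then there are no non-zero maps from `V` to `U⟦1⟧`. -/
lemma hom_zero_of_tensor {U V V' : T} [ExactPairing V V'] (h : IsZero (U ⊗ V))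
    (f : V ⟶ U⟦(1 : ℤ)⟧) : f = 0 := by
  have h1 : IsZero (U⟦(1 : ℤ)⟧ ⊗ V') :=
    isZero_swap (isZero_tensor_shift V' 1 (isZero_swap (isZero_dual h)))
  have h2 : (λ_ V).hom ≫ f = 0 := by
    apply (tensorRightHomEquiv (𝟙_ T) V V' (U⟦(1 : ℤ)⟧)).injective
    exact h1.eq_of_tgt _ _
  rw [← cancel_epi (λ_ V).hom, h2, comp_zero]

/-- Idempotent triangles split. -/
lemma exists_section {U V V' : T} [ExactPairing V V'] {u : U ⟶ 𝟙_ T} {v : 𝟙_ T ⟶ V}
    {w : V ⟶ U⟦(1 : ℤ)⟧} (hT : Triangle.mk u v w ∈ distTriang T) (h : IsZero (U ⊗ V)) :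
    ∃ s : V ⟶ 𝟙_ T, s ≫ v = 𝟙 V := by
  obtain ⟨s, hs⟩ := co3 hT (𝟙 V) (by rw [hom_zero_of_tensor (V' := V') h w, comp_zero])
  exact ⟨s, hs.symm⟩

variable {t : TStructure T} (ht : IsTensorCompatible t)

include ht

/-- A triangle `U → 1 → V` with `U ∈ T^{≤0}` and `V` in the heart is idempotent. -/
lemma isZero_tensor_of_heart {U V : T} {u : U ⟶ 𝟙_ T} {v : 𝟙_ T ⟶ V}
    {w : V ⟶ U⟦(1 : ℤ)⟧} (hT : Triangle.mk u v w ∈ distTriang T) (hU : t.le 0 U)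
    (hV : t.le 0 V) (hV' : t.ge 0 V) : IsZero (U ⊗ V) := by
  have h1 : U ◁ v ≫ u ▷ V ≫ (λ_ V).hom = 0 := by
    rw [← Category.assoc, whisker_exchange, Category.assoc, leftUnitor_naturality,
      ← Category.assoc]
    have h2 : u ▷ 𝟙_ T ≫ (λ_ (𝟙_ T)).hom = (ρ_ U).hom ≫ u := by
      rw [unitors_equal, rightUnitor_naturality]
    rw [h2, Category.assoc, fg hT, comp_zero]
  obtain ⟨w', hw'⟩ := tensor_dist U hT
  obtain ⟨k, hk⟩ := yo3 hw' _ h1
  have hUU : t.le (-1) ((U ⊗ U)⟦(1 : ℤ)⟧) :=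
    t.le_shift 0 1 (-1) (by omega) _ (by simpa using ht.le U U 0 0 hU hU)
  have hk0 : k = 0 := hom_zero t k (by omega) hUU hV'
  rw [hk0, comp_zero] at hk
  have h3 : u ▷ V = 0 := by
    rw [← cancel_mono (λ_ V).hom, hk, zero_comp]
  have h4 : V ◁ u = 0 := by
    have h5 := BraidedCategory.braiding_naturality_right V u
    rw [h3, comp_zero] at h5
    rw [← cancel_mono (β_ V (𝟙_ T)).hom, h5, zero_comp]
  obtain ⟨w'', hw''⟩ := tensor_dist V hT
  obtain ⟨a, ha⟩ := co1 hw'' (𝟙 _) (by rw [h4, Functor.map_zero, comp_zero])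
  have hVU : t.le 0 (V ⊗ U) := by simpa using ht.le V U 0 0 hV hU
  have hVU' : t.le (-1) ((V ⊗ U)⟦(1 : ℤ)⟧) := t.le_shift 0 1 (-1) (by omega) _ hVU
  have hVV : t.ge 0 (V ⊗ V) := by simpa using ht.ge V V 0 0 hV' hV'
  have ha0 : a = 0 := hom_zero t a (by omega) hVU' hVV
  have h6 : IsZero ((V ⊗ U)⟦(1 : ℤ)⟧) := by
    rw [IsZero.iff_id_eq_zero, ha, ha0, zero_comp]
  exact isZero_swap (isZero_of_shift 1 h6)

/-- Tensoring an object of amplitude `[n, n]` with the part of the unit in `T^{≤-1}`. -/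
lemma isZero_unit_low {C E M : T} {c : C ⟶ 𝟙_ T} {e : 𝟙_ T ⟶ E} {w : E ⟶ C⟦(1 : ℤ)⟧}
    (hT : Triangle.mk c e w ∈ distTriang T) (hC : t.le (-1) C) (hE : t.ge 0 E) {n : ℤ}
    (hM : t.le n M) (hM' : t.ge n M) : IsZero (M ⊗ C) := by
  obtain ⟨w', hw'⟩ := tensor_dist M hT
  have hMC : t.le (n - 1) (M ⊗ C) := ht.le M C n (-1) hM hC
  have h1 : M ◁ c = 0 := hom_zero t _ (m := n - 1) (n := n) (by omega) hMC
    (ge_of_iso t (ρ_ M).symm hM')
  obtain ⟨a, ha⟩ := co1 hw' (𝟙 _) (by rw [h1, Functor.map_zero, comp_zero])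
  have hMC' : t.le (n - 2) ((M ⊗ C)⟦(1 : ℤ)⟧) := t.le_shift (n - 1) 1 (n - 2) (by omega) _ hMC
  have hME : t.ge n (M ⊗ E) := by simpa using ht.ge M E n 0 hM' hE
  have ha0 : a = 0 := hom_zero t a (by omega) hMC' hME
  have h6 : IsZero ((M ⊗ C)⟦(1 : ℤ)⟧) := by
    rw [IsZero.iff_id_eq_zero, ha, ha0, zero_comp]
  exact isZero_of_shift 1 h6

/-- Tensoring an object of amplitude `[n, n]` with the part of the unit in `T^{≥1}`. -/
lemma isZero_unit_high {C E M : T} {c : C ⟶ 𝟙_ T} {e : 𝟙_ T ⟶ E} {w : E ⟶ C⟦(1 : ℤ)⟧}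
    (hT : Triangle.mk c e w ∈ distTriang T) (hC : t.le 0 C) (hE : t.ge 1 E) {n : ℤ}
    (hM : t.le n M) (hM' : t.ge n M) : IsZero (M ⊗ E) := by
  obtain ⟨w', hw'⟩ := tensor_dist M hT
  have hME : t.ge (n + 1) (M ⊗ E) := ht.ge M E n 1 hM' hE
  have h1 : M ◁ e = 0 := hom_zero t _ (m := n) (n := n + 1) (by omega)
    (le_of_iso t (ρ_ M).symm hM) hME
  obtain ⟨a, ha⟩ := yo3 hw' (𝟙 _) (by rw [h1, zero_comp])
  have hMC : t.le n (M ⊗ C) := by simpa using ht.le M C n 0 hM hC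
  have hMC' : t.le (n - 1) ((M ⊗ C)⟦(1 : ℤ)⟧) := t.le_shift n 1 (n - 1) (by omega) _ hMC
  have ha0 : a = 0 := hom_zero t a (by omega) hMC' hME
  rw [IsZero.iff_id_eq_zero, ha, ha0, comp_zero]

omit ht in
/-- Devissage: if `P ⊗ M = 0` for all `M` of amplitude `[n, n]`, then also for all bounded `M`. -/
lemma isZero_devissage {P : T} (h : ∀ (M : T) (n : ℤ), t.le n M → t.ge n M → IsZero (M ⊗ P))
    (k : ℕ) : ∀ (M : T) (a : ℤ), t.ge a M → t.le (a + k) M → IsZero (P ⊗ M) := by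
  induction k with
  | zero =>
    intro M a hM hM'
    exact isZero_swap (h M a (by simpa using hM') hM)
  | succ k ih =>
    intro M a hM hM'
    obtain ⟨A, B, hA, hB, f, g, w, hT⟩ := t.exists_triangle M a (a + 1) rfl
    have hA' : t.ge a A := ge_first t hT hM (ge_anti t (by omega) hB)
    have hB' : t.le (a + 1 + k) B :=
      le_third t hT (le_mono t (by push_cast; omega) hM') (le_mono t (by omega) hA)
    obtain ⟨w', hw'⟩ := tensor_dist P hT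
    exact Triangle.isZero₂_of_isZero₁₃ _ hw' (isZero_swap (h A a hA hA')) (ih B (a + 1) hB hB')

/-- The unit lies in `T^{≥0}`. -/
lemma unit_ge [∀ X : T, HasRightDual X] (hn : IsNondegenerate t) : t.ge 0 (𝟙_ T) := by
  obtain ⟨C, E, hC, hE, c, e, w, hT⟩ := t.exists_triangle (𝟙_ T) (-1) 0 (by omega)
  have key := isZero_devissage (t := t) (P := C)
    fun M n hM hM' => isZero_unit_low ht hT hC hE hM hM'
  have hCC : IsZero (C ⊗ C) := by
    apply hn.le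
    intro n
    obtain ⟨A, B, hA, hB, f, g, w₁, hT₁⟩ := t.exists_triangle C (min n (-2)) (min n (-2) + 1) rfl
    have hB' : t.le (-1) B := le_third t hT₁ hC (le_mono t (by omega) hA)
    have hCB : IsZero (C ⊗ B) := by
      refine key (-1 - (min n (-2) + 1)).toNat B (min n (-2) + 1) hB ?_
      have e1 : min n (-2) + 1 + ((-1 - (min n (-2) + 1)).toNat : ℤ) = -1 := by omega
      rw [e1]
      exact hB'
    obtain ⟨w', hw'⟩ := tensor_dist C hT₁
    haveI : IsIso (C ◁ f) := iso1 hw' hCB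
    exact le_of_iso t (asIso (C ◁ f)) (le_mono t (by omega) (ht.le C A (-1) _ hC hA))
  have hC0 : IsZero C := isZero_of_sq (V' := Cᘁ) hCC
  haveI : IsIso e := iso2 hT hC0
  exact ge_of_iso t (asIso e).symm hE

/-- The unit lies in `T^{≤0}`. -/
lemma unit_le [∀ X : T, HasRightDual X] (hn : IsNondegenerate t) : t.le 0 (𝟙_ T) := by
  obtain ⟨C, E, hC, hE, c, e, w, hT⟩ := t.exists_triangle (𝟙_ T) 0 1 (by omega)
  have key := isZero_devissage (t := t) (P := E)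
    fun M n hM hM' => isZero_unit_high ht hT hC hE hM hM'
  have hEE : IsZero (E ⊗ E) := by
    apply hn.ge
    intro n
    obtain ⟨A, B, hA, hB, f, g, w₁, hT₁⟩ := t.exists_triangle E (max n 1) (max n 1 + 1) rfl
    have hA' : t.ge 1 A := ge_first t hT₁ hE (ge_anti t (by omega) hB)
    have hEA : IsZero (E ⊗ A) := by
      refine key (max n 1 - 1).toNat A 1 hA' ?_
      have e1 : 1 + ((max n 1 - 1).toNat : ℤ) = max n 1 := by omega
      rw [e1]
      exact hA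
    obtain ⟨w', hw'⟩ := tensor_dist E hT₁
    haveI : IsIso (E ◁ g) := iso2 hw' hEA
    exact ge_of_iso t (asIso (E ◁ g)).symm (ge_anti t (by omega) (ht.ge E B 1 _ hE hB))
  have hE0 : IsZero E := isZero_of_sq (V' := Eᘁ) hEE
  haveI : IsIso c := iso1 hT hE0
  exact le_of_iso t (asIso c) hC

/-- The dual of an object of `T^{≥0}` lies in `T^{≤0}`. -/
lemma dual_le (h1 : t.le 0 (𝟙_ T)) {M M' : T} [ExactPairing M M'] (hM : t.ge 0 M) :
    t.le 0 M' := by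
  apply le_of_hom
  intro Y hY f
  have h2 : (ρ_ M').hom ≫ f = 0 := by
    apply (tensorLeftHomEquiv (𝟙_ T) M M' Y).injective
    rw [hom_zero t ((tensorLeftHomEquiv (𝟙_ T) M M' Y) ((ρ_ M').hom ≫ f)) (m := 0) (n := 1)
      (by omega) h1 (by simpa using ht.ge M Y 0 (0 + 1) hM hY)]
    exact (hom_zero t _ (m := 0) (n := 1) (by omega) h1
      (by simpa using ht.ge M Y 0 (0 + 1) hM hY)).symm
  rw [← cancel_epi (ρ_ M').hom, h2, comp_zero]

end Pool.Agent.TH133.TT
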